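import Pool.Agent.H55.CG.Targets

/-!
# EXG: one term of a group (board cog_modules)
-/

set_option autoImplicit false

open MeasureTheory ProbabilityTheory Filter Topology
open Pool.Agent.H95 Pool.Agent.H95.Cop Pool.Agent.H55.CG

namespace Pool.Agent.H12.CG

private theorem Mo_pos {ν : Measure ℝ} [IsProbabilityMeasure ν]
    (h : ∀ t : ℝ, Integrable (fun z => Real.exp (t * z)) ν) (s : ℝ) : 0 < Mo ν s :=
  integral_exp_pos (h s)

private theorem Mo_zero {ν : Measure ℝ} [IsProbabilityMeasure ν] : Mo ν 0 = 1 := by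
  unfold Mo
  simp

private theorem geo (n : ℕ) : ∑ j ∈ Finset.Icc 1 n, (1 / 8 : ℝ) ^ j ≤ 1 / 7 := by
  have h : ∑ j ∈ Finset.Icc 1 n, (1 / 8 : ℝ) ^ j = 1 / 7 - (1 / 8) ^ n / 7 := by
    induction n with
    | zero => simp
    | succ n ih =>
      rw [Finset.sum_Icc_succ_top (by omega), ih, pow_succ]
      ring
  rw [h]
  have : (0 : ℝ) ≤ (1 / 8) ^ n / 7 := by positivity
  linarith

private theorem geo' (a q n : ℕ) :
    ∑ b ∈ Finset.Icc (a + q) n, (1 / 8 : ℝ) ^ (b - a) ≤ (1 / 8) ^ q * (8 / 7) := by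
  have h : ∀ m : ℕ, ∑ b ∈ Finset.Ico (a + q) (a + q + m), (1 / 8 : ℝ) ^ (b - a) =
      (1 / 8) ^ q * (8 / 7) * (1 - (1 / 8) ^ m) := by
    intro m
    induction m with
    | zero => simp
    | succ m ih =>
      rw [← add_assoc, Finset.sum_Ico_succ_top (by omega), ih]
      have h1 : a + q + m - a = q + m := by omega
      rw [h1, pow_add, pow_succ]
      ring
  have h2 : Finset.Icc (a + q) n ⊆ Finset.Ico (a + q) (a + q + (n + 1)) := by
    intro b hb
    rw [Finset.mem_Icc] at hb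
    rw [Finset.mem_Ico]
    omega
  refine le_trans (Finset.sum_le_sum_of_subset_of_nonneg h2 fun i _ _ => by positivity) ?_
  rw [h]
  have h3 : (0 : ℝ) ≤ (1 / 8) ^ q * (8 / 7) := by positivity
  have h4 : (0 : ℝ) ≤ (1 / 8) ^ (n + 1) := by positivity
  nlinarith

open Classical in
theorem pf_EXG (hEXC : T_EXC) (hMSG : T_MSG) : T_EXG := by
  intro ν _ hν γ q ℓ t t' n hγ hq hℓ hn htn hm1 hm2 hm8 y z hy hyz hz
  set m1 := Mo ν γ with hm1d
  set m2 := Mo ν (γ / 2) with hm2d
  have p1 : 0 < m1 := Mo_pos hν _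
  have p2 : 0 < m2 := Mo_pos hν _
  set A := Mo ν (if t then γ else 0) with hAd
  set A' := Mo ν (if t' then γ else 0) with hA'd
  have hA : m1 ≤ A ∧ A ≤ 1 := by
    rw [hAd]
    cases t
    · simp only [Bool.false_eq_true, if_false, Mo_zero]; exact ⟨hm1, le_rfl⟩
    · simp only [if_true]; exact ⟨le_rfl, hm1⟩
  have hA' : m1 ≤ A' ∧ A' ≤ 1 := by
    rw [hA'd]
    cases t'
    · simp only [Bool.false_eq_true, if_false, Mo_zero]; exact ⟨hm1, le_rfl⟩
    · simp only [if_true]; exact ⟨le_rfl, hm1⟩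
  have pA : 0 < A := lt_of_lt_of_le p1 hA.1
  have pA' : 0 < A' := lt_of_lt_of_le p1 hA'.1
  set F : (ℕ → ℝ) → ℝ := fun x => Real.exp (γ * ex ℓ t n t' x y z) with hF
  set θ : ℝ := if t then -(γ / 2) else γ / 2 with hθ
  set E : ℝ := A ^ y * m2 ^ (z - y) * A' ^ (2 * n * ℓ - z) with hE
  have hE0 : 0 < E := by positivity
  have hFi : Integrable F (iid ν) ∧ ∫ x, F x ∂(iid ν) = E := by
    have h := hEXC ν hν γ 0 ℓ t t' n 0 0 y z hℓ hn le_rfl (by omega) hy hyz hz
    simp only [zero_mul, add_zero, Nat.sub_zero, pow_zero, one_mul] at h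
    exact h
  -- one condition
  have hone : ∀ a b : ℕ, a ≤ b → b ≤ n →
      Integrable (fun x => F x * Real.exp (θ * SX ℓ x a b)) (iid ν) ∧
      ∫ x, F x * Real.exp (θ * SX ℓ x a b) ∂(iid ν) ≤ E * (1 / 8) ^ (b - a) := by
    intro a b hab hbn
    have h := hEXC ν hν γ θ ℓ t t' n a b y z hℓ hn hab hbn hy hyz hz
    have h1 : (fun x : ℕ → ℝ => Real.exp (γ * ex ℓ t n t' x y z + θ * SX ℓ x a b)) =
        fun x => F x * Real.exp (θ * SX ℓ x a b) := by
      funext x; rw [hF, Real.exp_add]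
    rw [h1] at h
    refine ⟨h.1, ?_⟩
    rw [h.2]
    have h3 : (if t then γ else 0) + θ = γ / 2 := by
      rw [hθ]; cases t
      · simp
      · simp only [if_true]; ring
    rw [h3, ← hm2d, ← hAd, ← hA'd]
    have hle : (b - a) * ℓ ≤ y := by
      refine le_trans ?_ hy
      exact Nat.mul_le_mul_right _ (by omega)
    have h4 : A ^ y = A ^ (y - (b - a) * ℓ) * A ^ ((b - a) * ℓ) := by
      rw [← pow_add]; congr 1; omega
    have h5 : m2 ^ ((b - a) * ℓ) ≤ (1 / 8) ^ (b - a) * A ^ ((b - a) * ℓ) := by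
      rw [mul_comm (b - a) ℓ, pow_mul, pow_mul, ← mul_pow]
      have h6 : m2 ^ ℓ ≤ 1 / 8 * A ^ ℓ := by
        refine le_trans hm8 ?_
        have := pow_le_pow_left₀ p1.le hA.1 ℓ
        linarith
      exact pow_le_pow_left₀ (by positivity) h6 _
    rw [hE, h4]
    calc m2 ^ ((b - a) * ℓ) * A ^ (y - (b - a) * ℓ) * m2 ^ (z - y) * A' ^ (2 * n * ℓ - z)
        ≤ ((1 / 8) ^ (b - a) * A ^ ((b - a) * ℓ)) * A ^ (y - (b - a) * ℓ) * m2 ^ (z - y) *
          A' ^ (2 * n * ℓ - z) := by gcongr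
      _ = A ^ (y - (b - a) * ℓ) * A ^ ((b - a) * ℓ) * m2 ^ (z - y) * A' ^ (2 * n * ℓ - z) *
          (1 / 8) ^ (b - a) := by ring
  -- the sum of the bad conditions
  set S : (ℕ → ℝ) → ℝ := fun x =>
    (∑ j ∈ Finset.Icc 1 n, F x * Real.exp (θ * SX ℓ x 0 j)) +
    (∑ j ∈ Finset.Icc 1 n, F x * Real.exp (θ * SX ℓ x (n - j) n)) +
    (if t then 0 else ∑ a ∈ Finset.range n, ∑ b ∈ Finset.Icc (a + q) n,
      F x * Real.exp (θ * SX ℓ x a b)) with hS
  have hF0 : ∀ x, 0 < F x := fun x => Real.exp_pos _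
  have i1 : Integrable (fun x => ∑ j ∈ Finset.Icc 1 n, F x * Real.exp (θ * SX ℓ x 0 j))
      (iid ν) := by
    refine integrable_finsetSum _ fun j hj => ?_
    rw [Finset.mem_Icc] at hj
    exact (hone 0 j (by omega) hj.2).1
  have i2 : Integrable (fun x => ∑ j ∈ Finset.Icc 1 n, F x * Real.exp (θ * SX ℓ x (n - j) n))
      (iid ν) := by
    refine integrable_finsetSum _ fun j hj => ?_
    exact (hone (n - j) n (by omega) le_rfl).1
  have i3 : Integrable (fun x => if t then (0 : ℝ) else ∑ a ∈ Finset.range n,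
      ∑ b ∈ Finset.Icc (a + q) n, F x * Real.exp (θ * SX ℓ x a b)) (iid ν) := by
    cases t
    · simp only [Bool.false_eq_true, if_false]
      refine integrable_finsetSum _ fun a _ => integrable_finsetSum _ fun b hb => ?_
      rw [Finset.mem_Icc] at hb
      exact (hone a b (by omega) hb.2).1
    · simp only [if_true]
      exact integrable_zero _ _ _
  have b1 : ∫ x, ∑ j ∈ Finset.Icc 1 n, F x * Real.exp (θ * SX ℓ x 0 j) ∂(iid ν) ≤
      E * (1 / 7) := by
    rw [integral_finsetSum _ fun j hj => (hone 0 j (by omega) (Finset.mem_Icc.1 hj).2).1]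
    calc ∑ j ∈ Finset.Icc 1 n, ∫ x, F x * Real.exp (θ * SX ℓ x 0 j) ∂(iid ν)
        ≤ ∑ j ∈ Finset.Icc 1 n, E * (1 / 8) ^ j := by
          refine Finset.sum_le_sum fun j hj => ?_
          have := (hone 0 j (by omega) (Finset.mem_Icc.1 hj).2).2
          rwa [Nat.sub_zero] at this
      _ = E * ∑ j ∈ Finset.Icc 1 n, (1 / 8 : ℝ) ^ j := by rw [Finset.mul_sum]
      _ ≤ E * (1 / 7) := mul_le_mul_of_nonneg_left (geo n) hE0.le
  have b2 : ∫ x, ∑ j ∈ Finset.Icc 1 n, F x * Real.exp (θ * SX ℓ x (n - j) n) ∂(iid ν) ≤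
      E * (1 / 7) := by
    rw [integral_finsetSum _ fun j _ => (hone (n - j) n (by omega) le_rfl).1]
    calc ∑ j ∈ Finset.Icc 1 n, ∫ x, F x * Real.exp (θ * SX ℓ x (n - j) n) ∂(iid ν)
        ≤ ∑ j ∈ Finset.Icc 1 n, E * (1 / 8) ^ j := by
          refine Finset.sum_le_sum fun j hj => ?_
          have h := (hone (n - j) n (by omega) le_rfl).2
          have h2 : n - (n - j) = j := by
            have := (Finset.mem_Icc.1 hj).2
            omega
          rwa [h2] at h
      _ = E * ∑ j ∈ Finset.Icc 1 n, (1 / 8 : ℝ) ^ j := by rw [Finset.mul_sum]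
      _ ≤ E * (1 / 7) := mul_le_mul_of_nonneg_left (geo n) hE0.le
  have b3 : ∫ x, (if t then (0 : ℝ) else ∑ a ∈ Finset.range n,
      ∑ b ∈ Finset.Icc (a + q) n, F x * Real.exp (θ * SX ℓ x a b)) ∂(iid ν) ≤ E * (1 / 7) := by
    cases t
    · simp only [Bool.false_eq_true, if_false]
      have hc : (n : ℝ) ≤ 8 ^ (q - 1) := by exact_mod_cast htn rfl
      rw [integral_finsetSum _ fun a _ => integrable_finsetSum _ fun b hb =>
        (hone a b (by have := (Finset.mem_Icc.1 hb).1; omega) (Finset.mem_Icc.1 hb).2).1]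
      have h1 : ∀ a ∈ Finset.range n, ∫ x, ∑ b ∈ Finset.Icc (a + q) n,
          F x * Real.exp (θ * SX ℓ x a b) ∂(iid ν) ≤ E * ((1 / 8) ^ q * (8 / 7)) := by
        intro a _
        rw [integral_finsetSum _ fun b hb =>
          (hone a b (by have := (Finset.mem_Icc.1 hb).1; omega) (Finset.mem_Icc.1 hb).2).1]
        calc ∑ b ∈ Finset.Icc (a + q) n, ∫ x, F x * Real.exp (θ * SX ℓ x a b) ∂(iid ν)
            ≤ ∑ b ∈ Finset.Icc (a + q) n, E * (1 / 8) ^ (b - a) := by
              refine Finset.sum_le_sum fun b hb => ?_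
              exact (hone a b (by have := (Finset.mem_Icc.1 hb).1; omega)
                (Finset.mem_Icc.1 hb).2).2
          _ = E * ∑ b ∈ Finset.Icc (a + q) n, (1 / 8 : ℝ) ^ (b - a) := by rw [Finset.mul_sum]
          _ ≤ E * ((1 / 8) ^ q * (8 / 7)) := mul_le_mul_of_nonneg_left (geo' a q n) hE0.le
      refine le_trans (Finset.sum_le_sum h1) ?_
      rw [Finset.sum_const, Finset.card_range, nsmul_eq_mul]
      have h2 : (8 : ℝ) ^ (q - 1) * (1 / 8) ^ q = 1 / 8 := by
        obtain ⟨r, rfl⟩ : ∃ r, q = r + 1 := ⟨q - 1, by omega⟩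
        rw [Nat.add_sub_cancel, pow_succ, ← mul_assoc, ← mul_pow]
        norm_num
      calc (n : ℝ) * (E * ((1 / 8) ^ q * (8 / 7)))
          ≤ 8 ^ (q - 1) * (E * ((1 / 8) ^ q * (8 / 7))) := by gcongr
        _ = E * ((8 ^ (q - 1) * (1 / 8) ^ q) * (8 / 7)) := by ring
        _ = E * (1 / 7) := by rw [h2]; norm_num
    · simp only [if_true, integral_zero]
      positivity
  have hSi : Integrable S (iid ν) := (i1.add i2).add i3
  have hSE : ∫ x, S x ∂(iid ν) ≤ E * (3 / 7) := by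
    have h1 : ∫ x, S x ∂(iid ν) =
        ∫ x, ∑ j ∈ Finset.Icc 1 n, F x * Real.exp (θ * SX ℓ x 0 j) ∂(iid ν) +
        ∫ x, ∑ j ∈ Finset.Icc 1 n, F x * Real.exp (θ * SX ℓ x (n - j) n) ∂(iid ν) +
        ∫ x, (if t then (0 : ℝ) else ∑ a ∈ Finset.range n,
          ∑ b ∈ Finset.Icc (a + q) n, F x * Real.exp (θ * SX ℓ x a b)) ∂(iid ν) := by
      exact (integral_add (i1.add i2) i3).trans (congrArg (· + _) (integral_add i1 i2))
    rw [h1]; linarith
  have hS0 : ∀ x, 0 ≤ S x := by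
    intro x
    have hp : ∀ a b : ℕ, 0 ≤ F x * Real.exp (θ * SX ℓ x a b) := fun a b =>
      mul_nonneg (hF0 x).le (Real.exp_pos _).le
    have h3 : 0 ≤ (if t then (0 : ℝ) else ∑ a ∈ Finset.range n, ∑ b ∈ Finset.Icc (a + q) n,
        F x * Real.exp (θ * SX ℓ x a b)) := by
      split_ifs
      · exact le_rfl
      · exact Finset.sum_nonneg fun a _ => Finset.sum_nonneg fun b _ => hp a b
    exact add_nonneg (add_nonneg (Finset.sum_nonneg fun j _ => hp 0 j)
      (Finset.sum_nonneg fun j _ => hp (n - j) n)) h3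
  -- pointwise
  have hpt : ∀ x, F x - S x ≤ if Gd q ℓ t n x then F x else 0 := by
    intro x
    by_cases hg : Gd q ℓ t n x
    · rw [if_pos hg]; linarith [hS0 x]
    · rw [if_neg hg]
      have hp : ∀ a b : ℕ, 0 ≤ F x * Real.exp (θ * SX ℓ x a b) := fun a b =>
        mul_nonneg (hF0 x).le (Real.exp_pos _).le
      have hs1 : 0 ≤ ∑ j ∈ Finset.Icc 1 n, F x * Real.exp (θ * SX ℓ x 0 j) :=
        Finset.sum_nonneg fun j _ => hp 0 j
      have hs2 : 0 ≤ ∑ j ∈ Finset.Icc 1 n, F x * Real.exp (θ * SX ℓ x (n - j) n) :=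
        Finset.sum_nonneg fun j _ => hp (n - j) n
      have hs3 : 0 ≤ (if t then (0 : ℝ) else ∑ a ∈ Finset.range n,
          ∑ b ∈ Finset.Icc (a + q) n, F x * Real.exp (θ * SX ℓ x a b)) := by
        split_ifs
        · exact le_rfl
        · exact Finset.sum_nonneg fun a _ => Finset.sum_nonneg fun b _ => hp a b
      have hbig : ∀ a b : ℕ, 0 ≤ θ * SX ℓ x a b → F x ≤ F x * Real.exp (θ * SX ℓ x a b) := by
        intro a b hab
        have := Real.one_le_exp hab
        nlinarith [hF0 x]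
      have hpre : ∀ j, 1 ≤ j → j ≤ n → 0 ≤ θ * SX ℓ x 0 j → F x ≤ S x := by
        intro j h1 h2 h3
        have h4 : F x * Real.exp (θ * SX ℓ x 0 j) ≤
            ∑ j ∈ Finset.Icc 1 n, F x * Real.exp (θ * SX ℓ x 0 j) :=
          Finset.single_le_sum (f := fun j => F x * Real.exp (θ * SX ℓ x 0 j))
            (fun j _ => hp 0 j) (Finset.mem_Icc.2 ⟨h1, h2⟩)
        have h5 := hbig 0 j h3
        change F x ≤ _ + _ + _
        linarith
      have hsuf : ∀ j, 1 ≤ j → j ≤ n → 0 ≤ θ * SX ℓ x (n - j) n → F x ≤ S x := by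
        intro j h1 h2 h3
        have h4 : F x * Real.exp (θ * SX ℓ x (n - j) n) ≤
            ∑ j ∈ Finset.Icc 1 n, F x * Real.exp (θ * SX ℓ x (n - j) n) :=
          Finset.single_le_sum (f := fun j => F x * Real.exp (θ * SX ℓ x (n - j) n))
            (fun j _ => hp (n - j) n) (Finset.mem_Icc.2 ⟨h1, h2⟩)
        have h5 := hbig (n - j) n h3
        change F x ≤ _ + _ + _
        linarith
      suffices h : F x ≤ S x by linarith
      cases t
      · have hθ' : θ = γ / 2 := by rw [hθ]; simp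
        have hwin : ∀ a b, a + q ≤ b → b ≤ n → 0 ≤ θ * SX ℓ x a b → F x ≤ S x := by
          intro a b h1 h2 h3
          have h4 : ∑ b ∈ Finset.Icc (a + q) n, F x * Real.exp (θ * SX ℓ x a b) ≤
              ∑ a ∈ Finset.range n, ∑ b ∈ Finset.Icc (a + q) n,
                F x * Real.exp (θ * SX ℓ x a b) :=
            Finset.single_le_sum (f := fun a => ∑ b ∈ Finset.Icc (a + q) n,
              F x * Real.exp (θ * SX ℓ x a b))
              (fun a _ => Finset.sum_nonneg fun b _ => hp a b) (Finset.mem_range.2 (by omega))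
          have h5 : F x * Real.exp (θ * SX ℓ x a b) ≤
              ∑ b ∈ Finset.Icc (a + q) n, F x * Real.exp (θ * SX ℓ x a b) :=
            Finset.single_le_sum (f := fun b => F x * Real.exp (θ * SX ℓ x a b))
              (fun b _ => hp a b) (Finset.mem_Icc.2 ⟨h1, h2⟩)
          have h6 := hbig a b h3
          change F x ≤ _ + _ + (if (false = true) then (0 : ℝ) else _)
          simp only [Bool.false_eq_true, if_false]
          linarith
        by_contra hcon
        apply hg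
        refine ⟨fun j h1 h2 => ⟨?_, ?_⟩, fun a b h1 h2 => ?_⟩
        · by_contra h3
          exact hcon (hpre j h1 h2 (by rw [hθ']; exact mul_nonneg (by linarith) (not_lt.1 h3)))
        · by_contra h3
          exact hcon (hsuf j h1 h2 (by rw [hθ']; exact mul_nonneg (by linarith) (not_lt.1 h3)))
        · by_contra h3
          exact hcon (hwin a b h1 h2 (by rw [hθ']; exact mul_nonneg (by linarith) (not_lt.1 h3)))
      · have hθ' : θ = -(γ / 2) := by rw [hθ]; simp
        by_contra hcon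
        apply hg
        intro j h1 h2
        refine ⟨?_, ?_⟩
        · by_contra h3
          exact hcon (hpre j h1 h2 (by
            rw [hθ']; exact mul_nonneg_of_nonpos_of_nonpos (by linarith) (not_lt.1 h3)))
        · by_contra h3
          exact hcon (hsuf j h1 h2 (by
            rw [hθ']; exact mul_nonneg_of_nonpos_of_nonpos (by linarith) (not_lt.1 h3)))
  have hGi : Integrable (fun x => if Gd q ℓ t n x then F x else 0) (iid ν) := by
    have hm : MeasurableSet {x : ℕ → ℝ | Gd q ℓ t n x} :=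
      (hMSG (PMF.pure 0) ℓ q t t' n).2.1
    have h := hFi.1.indicator hm
    refine h.congr (Eventually.of_forall fun x => ?_)
    by_cases hx : Gd q ℓ t n x
    · rw [Set.indicator_of_mem (show x ∈ {x : ℕ → ℝ | Gd q ℓ t n x} from hx)]
      exact (if_pos hx).symm
    · rw [Set.indicator_of_notMem (show x ∉ {x : ℕ → ℝ | Gd q ℓ t n x} from hx)]
      exact (if_neg hx).symm
  have hfin : E - E * (3 / 7) ≤ ∫ x, (if Gd q ℓ t n x then F x else 0) ∂(iid ν) := by
    have h1 : ∫ x, (F x - S x) ∂(iid ν) ≤ ∫ x, (if Gd q ℓ t n x then F x else 0) ∂(iid ν) :=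
      integral_mono (hFi.1.sub hSi) hGi hpt
    rw [integral_sub hFi.1 hSi, hFi.2] at h1
    linarith
  have hEl : m1 ^ (((if t then 2 * n else 0) + 1) * ℓ) * m2 ^ ℓ ≤ E := by
    have hzy : z - y ≤ ℓ := by
      have h1 : 2 * n * ℓ = (2 * n - 1) * ℓ + ℓ := by
        obtain ⟨r, rfl⟩ : ∃ r, n = r + 1 := ⟨n - 1, by omega⟩
        have : 2 * (r + 1) = (2 * (r + 1) - 1) + 1 := by omega
        conv_lhs => rw [this]
        ring
      omega
    have hz2 : 2 * n * ℓ - z ≤ ℓ := by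
      have h1 : 2 * n * ℓ = (2 * n - 1) * ℓ + ℓ := by
        obtain ⟨r, rfl⟩ : ∃ r, n = r + 1 := ⟨n - 1, by omega⟩
        have : 2 * (r + 1) = (2 * (r + 1) - 1) + 1 := by omega
        conv_lhs => rw [this]
        ring
      omega
    have c1 : m2 ^ ℓ ≤ m2 ^ (z - y) := pow_le_pow_of_le_one p2.le hm2 hzy
    have c2 : m1 ^ ℓ ≤ A' ^ (2 * n * ℓ - z) :=
      le_trans (pow_le_pow_left₀ p1.le hA'.1 ℓ) (pow_le_pow_of_le_one pA'.le hA'.2 hz2)
    have c3 : m1 ^ ((if t then 2 * n else 0) * ℓ) ≤ A ^ y := by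
      rw [hAd]
      cases t
      · simp only [Bool.false_eq_true, if_false, Mo_zero, zero_mul, pow_zero, one_pow, le_refl]
      · simp only [if_true]
        rw [← hm1d]
        exact pow_le_pow_of_le_one p1.le hm1 (by omega)
    rw [add_mul, one_mul, pow_add, hE]
    calc m1 ^ ((if t then 2 * n else 0) * ℓ) * m1 ^ ℓ * m2 ^ ℓ
        ≤ A ^ y * A' ^ (2 * n * ℓ - z) * m2 ^ (z - y) := by gcongr
      _ = A ^ y * m2 ^ (z - y) * A' ^ (2 * n * ℓ - z) := by ring
  have hmain : 1 / 2 * (m1 ^ (((if t then 2 * n else 0) + 1) * ℓ) * m2 ^ ℓ) ≤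
      E - E * (3 / 7) := by linarith
  exact le_trans hmain hfin

end Pool.Agent.H12.CG
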